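import Mathlib
import Pool.Agent.helper95.ClassNo

/-!
# Vanishing of the 2-part of the Tate-Shafarevich group over towers of 2-power degree

Elliptic curves over the rationals with good supersingular reduction at two, over number fields
contained in Galois extensions of the rationals of degree a power of two.
-/

namespace Pool.Agent.Results.MP_e996df_nt.SilentTowers

open NumberField Pool.Agent.helper95

/-- Let `E` be the curve `y² = x³ + 4 a x² + 16 b x + 16 c` with `c` odd, of negative discriminant, let
`A` be the cubic field generated by a root `z` of `Z³ + 2 a Z² + 4 b Z + 2 c`, and suppose that `A` has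
odd class number and a unit which is not congruent to one modulo the square of the prime above two.
Suppose that each odd prime number `l` either has a single prime of `A` above it, or does not divide
the discriminant twice, or is a prime of multiplicative reduction at which the discriminant has
odd valuation. Let `K` be a number field contained in a Galois extension `L` of the rationals of
degree a power of two such that each prime number ramified in `L` is odd and has a single prime of `A`
above it. Then `E(K)` is finite of odd order and the `2`-primary part of the Tate-Shafarevich group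
of `E` over `K` is trivial. -/
theorem result (a b c : ℤ) (hc : Odd c) (hD : 0 < discD a b c)
    (A : Type) [Field A] [NumberField A] (z : A)
    (hz : z ^ 3 + 2 * a * z ^ 2 + 4 * b * z + 2 * c = 0) (hA : Module.finrank ℚ A = 3)
    (hcl : Odd (classNumber A))
    (hε : ∃ (ε : (𝓞 A)ˣ) (q : Ideal (𝓞 A)), q.IsPrime ∧ (2 : 𝓞 A) ∈ q ∧ (ε : 𝓞 A) - 1 ∉ q ^ 2)
    (hbad : ∀ l : ℕ, l.Prime → l ≠ 2 → Mono A l ∨ ¬ ((l : ℤ) ^ 2 ∣ discD a b c) ∨
      (¬ ((l : ℤ) ∣ a ^ 2 - 3 * b) ∧ Odd (padicValInt l (discD a b c))))
    (K : Type) [Field K] [NumberField K] (L : Type) [Field L] [NumberField L] [Algebra K L]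
    [IsGalois ℚ L] (n : ℕ) (hn : Module.finrank ℚ L = 2 ^ n)
    (hram : ∀ l : ℕ, l.Prime → (l : ℤ) ∣ discr L → l ≠ 2 ∧ Mono A l) :
    Finite (EC a b c K).toAffine.Point ∧ Odd (Nat.card (EC a b c K).toAffine.Point) ∧
      ShaPrimaryTrivial (EC a b c K) 2 := by
  obtain ⟨ε, q, hq, h2, hεq⟩ := hε
  have hmono2 : Mono A 2 := mono_two hc hz hA
  refine main hc hz hA hcl ?_ ?_ hn hram
  · intro u hu hu2
    exact unit_cond' hc hz hA hD q hq h2 ε hεq u hu (hu2 q hq h2)
  · intro l hl hl2
    rcases hbad l hl hl2 with h | h | ⟨h, h'⟩
    · exact Or.inl h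
    · exact Or.inr (Or.inl h)
    · right; right
      refine ⟨h, padicValInt l (discD a b c), h', ?_, ?_⟩
      · exact padicValInt_dvd _
      · intro hcon
        have : Fact l.Prime := ⟨hl⟩
        have h3 := (padicValInt_dvd_iff (p := l) (padicValInt l (discD a b c) + 1) (discD a b c)).mp
          (by exact_mod_cast hcon)
        rcases h3 with h3 | h3
        · rw [h3] at hD; exact lt_irrefl _ hD
        · omega

end Pool.Agent.Results.MP_e996df_nt.SilentTowers
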