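import Mathlib
import Pool.Agent.helper40.T3P.Main

/-!
# The three-part of the Birch and Swinnerton-Dyer conjecture over silent three-towers

The three-part of the conjecture for every Weierstrass equation of the curve `y² = x³ + √-3³`, over
every field between `k = ℚ(√-3)` and a silent Galois extension `L / k` of degree a power of three.
-/

open scoped Classical

namespace Pool.Agent.Results.MP_e996df_nt.ThreeTowersThreePart

open NumberField WeierstrassCurve IsDedekindDomain Pool.Agent.helper95

/-- The prime `P` of `L` is ramified over `k`: it occurs at least twice in the factorization of the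
ideal generated by the prime of `k` below `P`. -/
def Ramified (k : Type) {L : Type} [Field k] [Field L] [Algebra k L] (P : Ideal (𝓞 L)) : Prop :=
  (P.comap (algebraMap (𝓞 k) (𝓞 L))).map (algebraMap (𝓞 k) (𝓞 L)) ≤ P ^ 2

/-- The extension `L / k` has `3`-power degree, and each nonzero prime `P` of `L` ramified over `k`
does not contain `3`, and contains `2` or is such that `t` is not a square modulo `P`. -/
def Silent {k : Type} [Field k] (t : 𝓞 k) (L : Type) [Field L] [Algebra k L] : Prop :=
  (∃ m, Module.finrank k L = 3 ^ m) ∧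
  ∀ P : Ideal (𝓞 L), P.IsPrime → P ≠ ⊥ → Ramified k P →
    (3 : 𝓞 L) ∉ P ∧ ((2 : 𝓞 L) ∈ P ∨ ∀ x : 𝓞 L, x ^ 2 - algebraMap (𝓞 k) (𝓞 L) t ∉ P)

/-- Every finite `3`-group is the Galois group of `L / K` for a silent Galois extension `L / k` and a
field `k ⊆ K ⊆ L`, where all ramified primes of `L` have norm beyond any given bound and do not
contain `2`. -/
def EveryGroup {k : Type} [Field k] (t : 𝓞 k) : Prop :=
  ∀ (N n : ℕ) (G : Type) [Group G], Nat.card G = 3 ^ n →
    ∃ (L : Type) (_ : Field L) (_ : NumberField L) (_ : Algebra k L), IsGalois k L ∧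
      Silent t L ∧
      (∀ P : Ideal (𝓞 L), P.IsPrime → P ≠ ⊥ → Ramified k P →
        N < Ideal.absNorm P ∧ (2 : 𝓞 L) ∉ P) ∧
      ∃ K : IntermediateField k L, Nonempty ((L ≃ₐ[K] L) ≃* G)

/-- `W` is a Weierstrass equation over `K` of the curve `y² = x³ + t³`. -/
def IsModel {k K : Type} [Field k] [Field K] [Algebra k K] (t : 𝓞 k) (W : WeierstrassCurve K) :
    Prop :=
  ∃ D : VariableChange K, D • W = ⟨0, 0, 0, 0, (algebraMap k K (t : k)) ^ 3⟩

/-- `F` continues the `L`-series of `W` (Mathlib's) analytically from `Re s > 3 / 2` to a connected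
open set containing `1`. -/
def Continues {K : Type} [Field K] [NumberField K] (W : WeierstrassCurve K) (F : ℂ → ℂ) : Prop :=
  ∃ U : Set ℂ, IsOpen U ∧ IsConnected U ∧ {z : ℂ | (3 / 2 : ℝ) < z.re} ⊆ U ∧ (1 : ℂ) ∈ U ∧
    AnalyticOnNhd ℂ F U ∧ ∀ z : ℂ, (3 / 2 : ℝ) < z.re → F z = W.LSeries z

/-- The global period of `W` over a totally complex field `K`, for changes of variables `C v`, with
scaling factors `u`, to minimal models at the finite places `v`: the product of the numbers `|u|⁻¹`
(that is, of `|ω / ω_min|`, where `ω = dx / (2 y + a₁ x + a₃)` is the differential of `W`) and of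
the numbers `8 ∫ dA / |4 z³ + b₂ z² + 2 b₄ z + b₆|` (that is, twice the integral of `|ω ∧ ω̄|` over
the complex points of `W`) for the archimedean places. -/
noncomputable def period {K : Type} [Field K] [NumberField K] (W : WeierstrassCurve K)
    (C : ∀ v : HeightOneSpectrum (𝓞 K), VariableChange (v.adicCompletion K)) : ℝ :=
  (∏ᶠ v, ‖((C v).u : v.adicCompletion K)‖⁻¹) *
    ∏ w : InfinitePlace K, (8 * ∫ z : ℂ, 1 / ‖4 * z ^ 3 + w.embedding W.b₂ * z ^ 2 +
      2 * w.embedding W.b₄ * z + w.embedding W.b₆‖)

/-- The three-part of the conjecture for `W`, an elliptic curve over the totally complex field `K`, in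
the following form. The group `W(K)` is finite of order prime to `3`, and the `3`-primary part of
the Tate-Shafarevich group is trivial. For every choice of changes of variables `C v` to minimal
models over the completions at the finite places `v`, the points of nonsingular reduction form a
subgroup of index `1`, or of index dividing `4` if `v` lies above `2` (the Tamagawa numbers), and
the `L`-function continues to a neighbourhood of `1` and does not vanish at `1`, and
`L(W/K, 1) √|disc K|` is the product of the global period and a rational number of `3`-adic valuation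
`0`. -/
def ThreePart {K : Type} [Field K] [NumberField K] (W : WeierstrassCurve K) : Prop :=
  W.IsElliptic ∧ Finite W.toAffine.Point ∧ ¬ 3 ∣ Nat.card W.toAffine.Point ∧
  ShaPrimaryTrivial W 3 ∧
  ∀ (C : ∀ v : HeightOneSpectrum (𝓞 K), VariableChange (v.adicCompletion K))
    (_ : ∀ v, IsMinimal (v.adicCompletionIntegers K) (C v • W.baseChange (v.adicCompletion K))),
    (∀ v, ∃ H : AddSubgroup (C v • W.baseChange (v.adicCompletion K)).toAffine.Point,
      (∀ P, P ∈ H ↔ Tow.NonsingularRed (v.adicCompletionIntegers K)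
        (C v • W.baseChange (v.adicCompletion K)) P) ∧
      (H.index = 1 ∨ (2 : 𝓞 K) ∈ v.asIdeal ∧ H.index ∣ 4)) ∧
    ∃ F : ℂ → ℂ, Continues W F ∧ F 1 ≠ 0 ∧ ∃ q : ℚ, padicValRat 3 q = 0 ∧
      F 1 * √|(discr K : ℝ)| = q * (period W C : ℂ)

/-- Let `k = ℚ(√-3)` and `t = √-3`.

* Every finite `3`-group is the Galois group of `L / K` for a silent Galois extension `L / k` and a
  field `k ⊆ K ⊆ L`, where all ramified primes of `L` have norm beyond any given bound and do not
  contain `2`.
* Let `L / k` be a silent Galois extension, `K` a number field between `k` and `L`, and `W` a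
  Weierstrass equation over `K` of the elliptic curve `y² = x³ + t³`. Then the three-part of the
  conjecture of Birch and Swinnerton-Dyer holds for `W` over `K`, with trivial `3`-parts of all
  the arithmetic terms. -/
theorem result (k : Type) [Field k] [NumberField k] (hk : Module.finrank ℚ k = 2) (t : 𝓞 k)
    (ht : t ^ 2 = -3) :
    EveryGroup t ∧
    ∀ (L : Type) [Field L] [NumberField L] [Algebra k L] [IsGalois k L], Silent t L →
      ∀ (K : Type) [Field K] [NumberField K] [Algebra k K] [Algebra K L] [IsScalarTower k K L]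
        (W : WeierstrassCurve K), IsModel t W → ThreePart W := by
  refine ⟨fun N n G _ hG => ?_, ?_⟩
  · obtain ⟨L, i1, i2, i3, i4, hL, hP, hK⟩ := Pool.Agent.helper76.T3.exists_k ht hk N n G hG
    refine ⟨L, i1, i2, i3, i4, ⟨hL, fun P h1 h2 h3 => ?_⟩, fun P h1 h2 h3 => ?_, hK⟩
    · obtain ⟨-, -, h4, h5⟩ := hP P h1 h2 h3
      exact ⟨h4, Or.inr h5⟩
    · obtain ⟨h4, h5, -, -⟩ := hP P h1 h2 h3
      exact ⟨h4, h5⟩
  · intro L _ _ _ _ hL K _ _ _ _ _ W hW
    obtain ⟨h0, h1, h2, -⟩ := Pool.Agent.helper76.T3.all_k Pool.Agent.helper76.T3.cubHyp ht hk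
      (K := K) (L := L) hL.1 hL.2 W hW
    choose C₀ hC₀ using fun v : HeightOneSpectrum (𝓞 K) =>
      (W.baseChange (v.adicCompletion K)).exists_isMinimal (v.adicCompletionIntegers K)
    refine ⟨?_, h1, h2, (Pool.Agent.helper40.T3P.towers_three_part_k ht hk hL.1 hL.2 W hW
      C₀ hC₀).2.1, fun C hC => ?_⟩
    · rw [WeierstrassCurve.isElliptic_iff, isUnit_iff_ne_zero]
      exact h0
    obtain ⟨-, -, h4, U, G, hU1, hU2, hU3, hU4, hG1, hG2, hG3, q, hq, hG4⟩ :=
      Pool.Agent.helper40.T3P.towers_three_part_k ht hk hL.1 hL.2 W hW C hC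
    exact ⟨h4, G, ⟨U, hU1, hU2, hU3, hU4, hG1, hG2⟩, hG3, q, hq, hG4⟩

end Pool.Agent.Results.MP_e996df_nt.ThreeTowersThreePart
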