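import Mathlib
import Pool.Agent.helper95.Tow.Fi
import Pool.Agent.helper5.Tow.All
import Pool.Agent.helper41.Tow.Gal4

/-!
# The two-part of the Birch and Swinnerton-Dyer conjecture over silent two-towers

The two-part of the conjecture for the curve `y² + y = x³` over every number field which embeds in a
Galois extension of `ℚ` of degree a power of two in which only `3` and odd primes modulo which two is
not a cube ramify.
-/

open scoped Classical

namespace Pool.Agent.Results.MP_e996df_nt.TowersTwoPart

open NumberField WeierstrassCurve IsDedekindDomain Pool.Agent.helper95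

/-- Let `L` be a Galois extension of `ℚ` of degree a power of two such that each prime `l` dividing
its discriminant is odd, and is `3` or such that `2` is not a cube modulo `l`. Let `K` be a number
field with an embedding into `L`, and let `E` be the curve `y² + y = x³` over `K`. Then `E(K)` is
finite of odd order, and the `2`-primary part of the Tate-Shafarevich group is trivial. For every
choice of changes of variables `C v`, with scaling factors `u`, to minimal models over the
completions at the finite places `v`, the points of nonsingular reduction form a subgroup of index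
`1`, or of index `3` if `v` lies above `3` (the Tamagawa numbers). The `L`-function continues to a
neighbourhood of `1` and does not vanish at `1`, and `L(E/K, 1) √|disc K|` is the product of a
rational number of `2`-adic valuation `0`, of the numbers `|u|⁻¹` for all finite places, of the real
period for each real place, and of `4 ∫ dA / |4 z³ + 1|` for each complex place. -/
theorem result (L : Type) [Field L] [NumberField L] [IsGalois ℚ L] (n : ℕ)
    (hn : Module.finrank ℚ L = 2 ^ n)
    (hL : ∀ l : ℕ, l.Prime → (l : ℤ) ∣ discr L → l ≠ 2 ∧ (l = 3 ∨ ¬ ∃ x : ZMod l, x ^ 3 = 2))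
    (K : Type) [Field K] [NumberField K] (i : K →+* L)
    (C : ∀ v : HeightOneSpectrum (𝓞 K), VariableChange (v.adicCompletion K))
    (hC : ∀ v, IsMinimal (v.adicCompletionIntegers K)
      (C v • (⟨0, 0, 1, 0, 0⟩ : WeierstrassCurve K).baseChange (v.adicCompletion K))) :
    (Finite (⟨0, 0, 1, 0, 0⟩ : WeierstrassCurve K).toAffine.Point ∧
      Odd (Nat.card (⟨0, 0, 1, 0, 0⟩ : WeierstrassCurve K).toAffine.Point)) ∧
    ShaPrimaryTrivial (⟨0, 0, 1, 0, 0⟩ : WeierstrassCurve K) 2 ∧
    (∀ v, ∃ H : AddSubgroup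
        (C v • (⟨0, 0, 1, 0, 0⟩ : WeierstrassCurve K).baseChange
          (v.adicCompletion K)).toAffine.Point,
      (∀ P, P ∈ H ↔ Tow.NonsingularRed (v.adicCompletionIntegers K)
        (C v • (⟨0, 0, 1, 0, 0⟩ : WeierstrassCurve K).baseChange (v.adicCompletion K)) P) ∧
      (H.index = 1 ∨ (3 : 𝓞 K) ∈ v.asIdeal ∧ H.index = 3)) ∧
    ∃ (U : Set ℂ) (G : ℂ → ℂ), IsOpen U ∧ IsConnected U ∧ {z : ℂ | (3 / 2 : ℝ) < z.re} ⊆ U ∧
      (1 : ℂ) ∈ U ∧ AnalyticOnNhd ℂ G U ∧
      (∀ z : ℂ, (3 / 2 : ℝ) < z.re → G z = (⟨0, 0, 1, 0, 0⟩ : WeierstrassCurve K).LSeries z) ∧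
      G 1 ≠ 0 ∧ ∃ q : ℚ, padicValRat 2 q = 0 ∧ G 1 * √|(discr K : ℝ)| =
        q * (((∏ᶠ v, ‖((C v).u : v.adicCompletion K)‖⁻¹) *
          (2 * ∫ x in {x : ℝ | 0 < 4 * x ^ 3 + 1}, 1 / √(4 * x ^ 3 + 1)) ^
            InfinitePlace.nrRealPlaces K *
          (4 * ∫ z : ℂ, 1 / ‖4 * z ^ 3 + 1‖) ^ InfinitePlace.nrComplexPlaces K : ℝ) : ℂ) := by
  let _ : Algebra K L := i.toAlgebra
  exact Tow.towers_two_part (K := K) (L := L) ⟨n, hn⟩
    (fun V hV => Pool.Agent.helper5.Tow.stepHolds V hV)
    (fun V hV => Pool.Agent.helper18.Tow.UL_kk hV)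
    (fun F _ _ _ h2 hn r sg s hs τ hτ v hv =>
      Pool.Agent.helper41.Tow.gal_value h2 hn sg hs hτ hv) hL C hC

end Pool.Agent.Results.MP_e996df_nt.TowersTwoPart
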