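import Mathlib
import Pool.Agent.helper10.PBT.Fin
import Pool.Agent.helper10.PW.Fin.D
import Pool.Agent.helper10.PW.Fin.Inf

/-!
# The `p`-part of the Birch and Swinnerton-Dyer conjecture over silent `p`-towers

The `p`-part of the conjecture for the curves `y² = x³ + D` and their twists, over every number field
which embeds in a silent Galois extension of `k = ℚ(√-3)` of degree a power of `p`: for every `p ≥ 5`
if `D = 16` (the curve `y² + y = x³`), and for all but finitely many of the primes which are not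
anomalous, if `L(1) ≠ 0` over `k`.
-/

set_option autoImplicit false

open scoped Classical
open NumberField WeierstrassCurve IsDedekindDomain Pool.Agent.helper95

namespace Pool.Agent.Results.MP_e996df_nt.TowersUniformPPart

/-! ### The fields -/

/-- The prime `P` of `L` is ramified over `k`: it occurs at least twice in the factorization of the
ideal generated by the prime of `k` below `P`. -/
def Ramified (k : Type) {L : Type} [Field k] [Field L] [Algebra k L] (P : Ideal (𝓞 L)) : Prop :=
  (P.comap (algebraMap (𝓞 k) (𝓞 L))).map (algebraMap (𝓞 k) (𝓞 L)) ≤ P ^ 2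

/-- The number of points of `y² = x³ + D` over the residue field of `P`, including the point at
infinity. -/
noncomputable def pointCount {L : Type} [Field L] (D : 𝓞 L) (P : Ideal (𝓞 L)) : ℕ :=
  1 + Nat.card {z : (𝓞 L ⧸ P) × (𝓞 L ⧸ P) // z.2 ^ 2 = z.1 ^ 3 + Ideal.Quotient.mk P D}

/-- The extension `L / k` has `p`-power degree, and no nonzero prime `P` of `L` ramified over `k`
contains `p`; moreover `P` contains `D`, or `p` does not divide the number of points of
`y² = x³ + D` over the residue field of `P`. -/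
def Silent (p : ℕ) (k L : Type) [Field k] [Field L] [Algebra k L] (D : 𝓞 k) : Prop :=
  (∃ m, Module.finrank k L = p ^ m) ∧
  ∀ P : Ideal (𝓞 L), P.IsPrime → P ≠ ⊥ → Ramified k P →
    (p : 𝓞 L) ∉ P ∧ (algebraMap (𝓞 k) (𝓞 L) D ∈ P ∨
      ¬ p ∣ pointCount (algebraMap (𝓞 k) (𝓞 L) D) P)

/-! ### The `p`-part of the conjecture -/

/-- `F` continues the `L`-series of `W` (Mathlib's) analytically from `Re s > 3 / 2` to a connected
open set containing `1`. -/
def Continues {K : Type} [Field K] [NumberField K] (W : WeierstrassCurve K) (F : ℂ → ℂ) : Prop :=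
  ∃ U : Set ℂ, IsOpen U ∧ IsConnected U ∧ {z : ℂ | (3 / 2 : ℝ) < z.re} ⊆ U ∧ (1 : ℂ) ∈ U ∧
    AnalyticOnNhd ℂ F U ∧ ∀ z : ℂ, (3 / 2 : ℝ) < z.re → F z = W.LSeries z

/-- The integral of `|ω|` over the real points of `W`, `ω = dx / (2 y + a₁ x + a₃)`. -/
noncomputable def realPer (W : WeierstrassCurve ℝ) : ℝ :=
  2 * ∫ x in {x : ℝ | 0 < 4 * x ^ 3 + W.b₂ * x ^ 2 + 2 * W.b₄ * x + W.b₆},
    1 / √(4 * x ^ 3 + W.b₂ * x ^ 2 + 2 * W.b₄ * x + W.b₆)

/-- Twice the integral of `|ω ∧ ω̄|` over the complex points of `W`. -/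
noncomputable def complexPer (W : WeierstrassCurve ℂ) : ℝ :=
  8 * ∫ z : ℂ, 1 / ‖4 * z ^ 3 + W.b₂ * z ^ 2 + 2 * W.b₄ * z + W.b₆‖

/-- The global period of `W`, for changes of variables `C v`, with scaling factors `u`, to minimal
models at the finite places `v`: the product of the numbers `|u|⁻¹` (that is, of `|ω / ω_min|`), of
the real periods for the real places and of the complex periods for the complex places. -/
noncomputable def period {K : Type} [Field K] [NumberField K] (W : WeierstrassCurve K)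
    (C : ∀ v : HeightOneSpectrum (𝓞 K), VariableChange (v.adicCompletion K)) : ℝ :=
  (∏ᶠ v, ‖((C v).u : v.adicCompletion K)‖⁻¹) *
    ((∏ v : {v : InfinitePlace K // v.IsReal},
      realPer (W.map (InfinitePlace.embedding_of_isReal v.2))) *
    ∏ v : {v : InfinitePlace K // v.IsComplex}, complexPer (W.map v.1.embedding))

/-- The `p`-part of the conjecture for `W` in the following form. `W` is an elliptic curve, the group
`W(K)` is finite of order prime to `p`, and the `p`-primary part of the Tate-Shafarevich group is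
trivial. For every choice of changes of variables `C v` to minimal models over the completions at
the finite places `v`, the points of nonsingular reduction form a subgroup of index prime to `p`
(the Tamagawa numbers), and the `L`-function continues to a neighbourhood of `1` and does not vanish
at `1`, and `L(W/K, 1) √|disc K|` is the product of the global period and a rational number of
`p`-adic valuation `0`. -/
def PPart (p : ℕ) {K : Type} [Field K] [NumberField K] (W : WeierstrassCurve K) : Prop :=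
  W.IsElliptic ∧ Finite W.toAffine.Point ∧ ¬ p ∣ Nat.card W.toAffine.Point ∧
  ShaPrimaryTrivial W p ∧
  ∀ (C : ∀ v : HeightOneSpectrum (𝓞 K), VariableChange (v.adicCompletion K))
    (_ : ∀ v, IsMinimal (v.adicCompletionIntegers K) (C v • W.baseChange (v.adicCompletion K))),
    (∀ v, ∃ H : AddSubgroup (C v • W.baseChange (v.adicCompletion K)).toAffine.Point,
      (∀ P, P ∈ H ↔ Tow.NonsingularRed (v.adicCompletionIntegers K)
        (C v • W.baseChange (v.adicCompletion K)) P) ∧ ¬ p ∣ H.index) ∧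
    ∃ F : ℂ → ℂ, Continues W F ∧ F 1 ≠ 0 ∧ ∃ q : ℚ, padicValRat p q = 0 ∧
      F 1 * √|(discr K : ℝ)| = q * (period W C : ℂ)

/-- Every finite `p`-group is the Galois group of `L / K` for a silent Galois extension `L / k` and a
field `k ⊆ K ⊆ L`, where all ramified primes of `L` have norm beyond any given bound; and for every
silent Galois extension `L / k`, every number field `K` with an embedding into `L` and every
Weierstrass curve `W` over `K` which becomes isomorphic over `L` to `y² = x³ + D`, the `p`-part of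
the conjecture holds for `W`. -/
def Towers (p : ℕ) (k : Type) [Field k] (D : 𝓞 k) : Prop :=
  (∀ (N n : ℕ) (G : Type) [Group G], Nat.card G = p ^ n →
    ∃ (L : Type) (_ : Field L) (_ : NumberField L) (_ : Algebra k L), IsGalois k L ∧
      Silent p k L D ∧
      (∀ P : Ideal (𝓞 L), P.IsPrime → P ≠ ⊥ → Ramified k P → N < Ideal.absNorm P) ∧
      ∃ K : IntermediateField k L, Nonempty ((L ≃ₐ[K] L) ≃* G)) ∧
  ∀ (L : Type) [Field L] [NumberField L] [Algebra k L] [IsGalois k L], Silent p k L D →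
    ∀ (K : Type) [Field K] [NumberField K] (i : K →+* L) (W : WeierstrassCurve K),
      (∃ C : VariableChange L, C • W.map i = ⟨0, 0, 0, 0, algebraMap k L D⟩) → PPart p W

/-! ### The curves -/

/-- `D` is not divisible by the sixth power of a prime, and is not `t ^ 3 * c` with
`c ≡ ±1` modulo `3 * t`: the curve `y² = x³ + D` has bad reduction at `t`. -/
def Admissible {k : Type} [Field k] (t D : 𝓞 k) : Prop :=
  (∀ P : Ideal (𝓞 k), P.IsPrime → P ≠ ⊥ → D ∉ P ^ 6) ∧
  ∀ c : 𝓞 k, D = t ^ 3 * c → ¬ 3 * t ∣ c - 1 ∧ ¬ 3 * t ∣ c + 1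

/-- The `L`-series of `W` (Mathlib's) continues analytically from `Re s > 3 / 2` to an open set
which contains the interval `[1, ∞)`, with a nonzero value at `1`. -/
def NonzeroAtOne {K : Type} [Field K] [NumberField K] (W : WeierstrassCurve K) : Prop :=
  ∃ (U : Set ℂ) (F : ℂ → ℂ), IsOpen U ∧ {z : ℂ | (3 / 2 : ℝ) < z.re} ⊆ U ∧
    (∀ x : ℝ, 1 ≤ x → (x : ℂ) ∈ U) ∧ AnalyticOnNhd ℂ F U ∧
    (∀ z : ℂ, (3 / 2 : ℝ) < z.re → F z = W.LSeries z) ∧ F 1 ≠ 0

/-- The squarefree integers `d ≡ 1` modulo `4` such that `2` is not a cube modulo any prime number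
dividing `d` (for example `1`, `-7`, `13`, `-19`, `37`). -/
def Family : Set ℤ :=
  {d | Squarefree d ∧ d % 4 = 1 ∧ ∀ l : ℕ, l.Prime → (l : ℤ) ∣ d → ¬ ∃ x : ZMod l, x ^ 3 = 2}

private theorem towers_of {k : Type} [Field k] [NumberField k] {t : 𝓞 k} (ht : t ^ 2 = -3)
    (hk : Module.finrank ℚ k = 2) {D : 𝓞 k} {p : ℕ} (hp : p.Prime) (h5 : 5 ≤ p)
    {ν : Pool.Agent.helper77.BSD.EA} {ε : Pool.Agent.helper10.PW.UChar}
    (hG : Pool.Agent.helper10.PW.GoodD ((Pool.Agent.helper10.PW.e0 ht hk).symm D))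
    (hT : Pool.Agent.helper10.PW.IsTw ((Pool.Agent.helper10.PW.e0 ht hk).symm D) ν ε)
    (hA : Pool.Agent.helper10.PW.AdmP p ((Pool.Agent.helper10.PW.e0 ht hk).symm D) ν ε ∨
      D = 16) : Towers p k D := by
  refine ⟨fun N n G _ hG' => ?_, ?_⟩
  · obtain ⟨L, i1, i2, i3, i4, hL, hP, hK⟩ :=
      Pool.Agent.helper10.PW.exists_kW ht hk hG hT hp h5 N n G hG'
    refine ⟨L, i1, i2, i3, i4, ⟨hL, fun P h1 h2 h3 => ?_⟩,
      fun P h1 h2 h3 => (hP P h1 h2 h3).1, hK⟩
    obtain ⟨-, h4, h5⟩ := hP P h1 h2 h3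
    exact ⟨h4, or_iff_not_imp_left.2 h5⟩
  · intro L _ _ _ _ hL K _ _ i W hW
    obtain ⟨C, hC⟩ := hW
    obtain ⟨h1, h2, h3, h4, h6⟩ := Pool.Agent.helper10.PBT.ppart_k ht hk hp h5
      (hA.imp_left fun h => ⟨ν, ε, hG, hT, h⟩) (L := L) hL.1
      (fun P h1 h2 h3 => ⟨(hL.2 P h1 h2 h3).1, or_iff_not_imp_left.1 (hL.2 P h1 h2 h3).2⟩)
      i W (C₀ := C) hC
    refine ⟨?_, h2, h3, h4, fun C hC => ?_⟩
    · rw [WeierstrassCurve.isElliptic_iff, isUnit_iff_ne_zero]
      exact h1
    · obtain ⟨h7, U, G, hU1, hU2, hU3, hU4, hG1, hG2, hG3, q, hq, hG4⟩ := h6 C hC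
      exact ⟨h7, G, ⟨U, hU1, hU2, hU3, hU4, hG1, hG2⟩, hG3, q, hq, hG4⟩

/-- Let `k = ℚ(√-3)`.

* For `D = 16` (the curve `y² + y = x³`) and every prime number `p ≥ 5`, the `p`-part of the
  conjecture of Birch and Swinnerton-Dyer holds in the `p`-towers (`Towers p k 16`), with trivial
  `p`-parts of all the arithmetic terms.
* Let `D` be admissible and let `L(s)`, the `L`-series over `k` of the curve `y² = x³ + D`, satisfy
  `L(1) ≠ 0`.  There is a finite set `S` of prime numbers, which depends only on `D`, such that the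
  same holds (`Towers p k D`) for every prime number `p` outside `S`, with `p ≡ 2` modulo `3` or `p`
  not dividing the number of points of the curve modulo the primes of `k` above `p`.
* The hypotheses on `D` hold for `D = 16 * d ^ 3` with `d` in the infinite set `Family`. -/
theorem result (k : Type) [Field k] [NumberField k] (hk : Module.finrank ℚ k = 2) (t : 𝓞 k)
    (ht : t ^ 2 = -3) :
    (∀ p : ℕ, p.Prime → 5 ≤ p → Towers p k 16) ∧
    (∀ D : 𝓞 k, Admissible t D → NonzeroAtOne (⟨0, 0, 0, 0, (D : k)⟩ : WeierstrassCurve k) →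
      ∃ S : Finset ℕ, ∀ p : ℕ, p.Prime → p ∉ S →
        (p % 3 = 1 → ∀ P : Ideal (𝓞 k), P.IsPrime → (p : 𝓞 k) ∈ P → ¬ p ∣ pointCount D P) →
        Towers p k D) ∧
    Family.Infinite ∧ ∀ d ∈ Family,
      Admissible t (16 * (d : 𝓞 k) ^ 3) ∧
      NonzeroAtOne (⟨0, 0, 0, 0, ((16 * (d : 𝓞 k) ^ 3 : 𝓞 k) : k)⟩ : WeierstrassCurve k) := by
  refine ⟨fun p hp h5 => ?_, fun D hD hNV => ?_, Pool.Agent.helper10.PW.infinite_family, ?_⟩
  · obtain ⟨ν, ε, hT⟩ := Pool.Agent.helper10.PW.exists_isTw Pool.Agent.helper10.PBT.goodD_sixteen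
    have e : (Pool.Agent.helper10.PW.e0 ht hk).symm 16 = 16 := map_ofNat _ 16
    exact towers_of ht hk hp h5 (D := 16) (by rw [e]; exact Pool.Agent.helper10.PBT.goodD_sixteen)
      (by rw [e]; exact hT) (Or.inr rfl)
  · obtain ⟨hG, ν, ε, hT, S, hS⟩ :=
      Pool.Agent.helper10.PW.exists_admP_k ht hk hD.1 hD.2 hNV
    refine ⟨S ∪ {2, 3}, fun p hp hpS hreg => ?_⟩
    have hA := hS p hp (fun h => hpS (Finset.mem_union_left _ h)) hreg
    exact towers_of ht hk hp hA.five hG hT (Or.inl hA)
  · rintro d ⟨hs, hd, hc⟩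
    have hG := Pool.Agent.helper10.PW.goodD_family hs hd
      (Pool.Agent.helper10.PW.three_not_dvd hc)
    have he : Pool.Agent.helper10.PW.e0 ht hk (16 * (d : Pool.Agent.helper77.BSD.EA) ^ 3) =
        16 * (d : 𝓞 k) ^ 3 := by
      rw [map_mul, map_pow, map_intCast, map_ofNat]
    have hadm := Pool.Agent.helper10.PW.adm_of_goodD ht hk hG
    rw [he] at hadm
    refine ⟨hadm, Pool.Agent.helper10.PW.NV_k (Pool.Agent.helper10.PT.ekP ht hk) hG ?_
      (Pool.Agent.helper10.PW.NV_family hd hc)⟩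
    rw [← he, Pool.Agent.helper10.PW.e0_coe]

end Pool.Agent.Results.MP_e996df_nt.TowersUniformPPart
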